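import Pool.Agent.Helper70.DY.F1

/-!
# Block [H]: local finiteness along the segment from a centre to a wall (MP_d13a5e_al)
-/

namespace DY

open Set

variable {E : Type*} [AddCommGroup E] [Module ℝ E]
variable {Ψ : Set E} {B : E →ₗ[ℝ] E →ₗ[ℝ] ℝ} {ρ : E →ₗ[ℝ] ℝ}

/-- the Chebyshev sequence -/
private def ch (β : ℝ) : ℕ → ℝ
  | 0 => 0
  | 1 => 1
  | (n + 2) => 2 * β * ch β (n + 1) - ch β n

private theorem ch_step {β : ℝ} (hβ : 1 ≤ β) (n : ℕ) : 0 ≤ ch β n ∧ ch β n + 1 ≤ ch β (n + 1) := by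
  induction n with
  | zero => simp [ch]
  | succ n ih =>
    have h1 : ch β (n + 2) = 2 * β * ch β (n + 1) - ch β n := rfl
    refine ⟨by linarith [ih.1, ih.2], ?_⟩
    show ch β (n + 1) + 1 ≤ ch β (n + 2)
    rw [h1]
    have h2 : 0 ≤ ch β (n + 1) := by linarith [ih.1, ih.2]
    nlinarith [mul_nonneg (sub_nonneg.mpr hβ) h2, ih.2]

private theorem ch_strictMono {β : ℝ} (hβ : 1 ≤ β) : StrictMono (ch β) :=
  strictMono_nat_of_lt_succ fun n => by linarith [(ch_step hβ n).2]

/-- the roots `s_{n+1} t - s_n v` -/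
private def seqR (β : ℝ) (t v : E) (n : ℕ) : E := ch β (n + 1) • t - ch β n • v

/-- (H1) -/
theorem Cn.nest (hS : Sys Ψ B) (hC : Cn Ψ B ρ) {t v : E} (ht : t ∈ Ψ) (hv : v ∈ Ψ) (htv : t ≠ v)
    (hB : 1 ≤ B t v) (h0 : 0 < ρ t) (h1 : ρ t ≤ ρ v) (h2 : ρ t ≤ 2 * B t v * ρ t - ρ v) : False := by
  set β := B t v with hβ
  have hsym : B v t = β := hS.symm v t
  have htt := hS.one t ht
  have hvv := hS.one v hv
  set u : ℕ → E := seqR β t v with hu
  have hu0 : u 0 = t := by simp [hu, seqR, ch]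
  have hu1 : u 1 = (2 * β) • t - v := by simp [hu, seqR, ch]
  have hu2 : ∀ n, u (n + 2) = (2 * β) • u (n + 1) - u n := by
    intro n
    have e1 : ch β (n + 3) = 2 * β * ch β (n + 2) - ch β (n + 1) := rfl
    have e2 : ch β (n + 2) = 2 * β * ch β (n + 1) - ch β n := rfl
    show ch β (n + 3) • t - ch β (n + 2) • v =
      (2 * β) • (ch β (n + 2) • t - ch β (n + 1) • v) - (ch β (n + 1) • t - ch β n • v)
    rw [e1]
    conv_lhs => rw [show ch β (n + 2) • v = (2 * β * ch β (n + 1) - ch β n) • v by rw [← e2]]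
    module
  -- `B (u n) (u (n+1)) = β`, all are roots
  have hBu : ∀ n, u n ∈ Ψ ∧ u (n + 1) ∈ Ψ ∧ B (u n) (u (n + 1)) = β := by
    intro n
    induction n with
    | zero =>
      refine ⟨by rw [hu0]; exact ht, ?_, ?_⟩
      · have h3 : u 1 = -rf B t v := by rw [hu1]; unfold rf; rw [neg_sub]
        rw [zero_add, h3]
        exact hS.neg _ (hS.refl t ht v hv)
      · rw [zero_add, hu0, hu1]
        simp only [map_sub, map_smul, smul_eq_mul, htt]
        rw [← hβ]
        ring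
    | succ n ih =>
      obtain ⟨h3, h4, h5⟩ := ih
      have h6 := hS.one _ h4
      have h7 : B (u (n + 1)) (u n) = β := by rw [hS.symm]; exact h5
      refine ⟨h4, ?_, ?_⟩
      · have h8 : u (n + 2) = -rf B (u (n + 1)) (u n) := by
          rw [hu2]; unfold rf; rw [h7, neg_sub]
        show u (n + 2) ∈ Ψ
        rw [h8]
        exact hS.neg _ (hS.refl _ h4 _ h3)
      · show B (u (n + 1)) (u (n + 2)) = β
        rw [hu2]
        simp only [map_sub, map_smul, smul_eq_mul, h6, h7]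
        ring
  -- values of `ρ`
  have hpos : ∀ n, ρ t ≤ ρ (u n) ∧ ρ (u n) ≤ ρ (u (n + 1)) := by
    intro n
    induction n with
    | zero =>
      rw [zero_add, hu0, hu1]
      refine ⟨le_rfl, ?_⟩
      simp only [map_sub, map_smul, smul_eq_mul]
      linarith
    | succ n ih =>
      refine ⟨ih.1.trans ih.2, ?_⟩
      show ρ (u (n + 1)) ≤ ρ (u (n + 2))
      rw [hu2]
      simp only [map_sub, map_smul, smul_eq_mul]
      have h3 : 0 ≤ ρ (u (n + 1)) := h0.le.trans (ih.1.trans ih.2)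
      nlinarith [mul_nonneg (sub_nonneg.mpr hB) h3, ih.2]
  -- `ρ (r_t (u n)) ≤ 0`
  have hneg : ∀ n, ρ (rf B t (u n)) ≤ 0 := by
    intro n
    cases n with
    | zero =>
      rw [hu0]
      unfold rf
      simp only [map_sub, map_smul, smul_eq_mul, htt]
      linarith
    | succ n =>
      have e2 : ch β (n + 2) = 2 * β * ch β (n + 1) - ch β n := rfl
      have h3 : u (n + 1) = ch β (n + 2) • t - ch β (n + 1) • v := rfl
      rw [h3, e2]
      unfold rf
      simp only [map_sub, map_smul, smul_eq_mul, htt]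
      rw [← hβ]
      have h4 := (ch_step hB n)
      have h5 : ch β n * ρ t ≤ ch β (n + 1) * ρ v := by
        have h6 : ch β n * ρ t ≤ ch β (n + 1) * ρ t :=
          mul_le_mul_of_nonneg_right (by linarith [h4.2]) h0.le
        have h7 : ch β (n + 1) * ρ t ≤ ch β (n + 1) * ρ v :=
          mul_le_mul_of_nonneg_left h1 (by linarith [h4.1, h4.2])
        exact h6.trans h7
      nlinarith [h5]
  have hinj : Function.Injective u := by
    have hlt : ∀ m n, m < n → u m ≠ u n := by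
      intro m n hmn heq
      have h3 : 0 < ch β (n + 1) - ch β (m + 1) :=
        sub_pos.mpr (ch_strictMono hB (by omega))
      have h4 : 0 < ch β n - ch β m := sub_pos.mpr (ch_strictMono hB hmn)
      have h5 : (ch β (n + 1) - ch β (m + 1)) • t = (ch β n - ch β m) • v := by
        have h6 : ch β (m + 1) • t - ch β m • v = ch β (n + 1) • t - ch β n • v := heq
        have h7 : (ch β (n + 1) - ch β (m + 1)) • t - (ch β n - ch β m) • v =
            (ch β (n + 1) • t - ch β n • v) - (ch β (m + 1) • t - ch β m • v) := by module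
        rw [← sub_eq_zero, h7, h6, sub_self]
      set A := ch β (n + 1) - ch β (m + 1) with hA
      set C := ch β n - ch β m with hC'
      have h8 : v = (A / C) • t := by
        rw [div_eq_inv_mul, mul_smul, h5, smul_smul, inv_mul_cancel₀ h4.ne', one_smul]
      have h9 : (A / C) * (A / C) = 1 := by
        have := hvv
        rw [h8] at this
        simpa [htt] using this
      have h10 : 0 < A / C := div_pos h3 h4
      have h11 : A / C = 1 := by nlinarith
      rw [h11, one_smul] at h8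
      exact htv h8.symm
    intro m n hmn
    rcases lt_trichotomy m n with h | h | h
    · exact absurd hmn (hlt m n h)
    · exact h
    · exact absurd hmn.symm (hlt n m h)
  have hinf : (Set.range u).Infinite := Set.infinite_range_of_injective hinj
  refine hinf ((hC.inv t ht).subset ?_)
  rintro _ ⟨n, rfl⟩
  exact ⟨(hBu n).1, h0.le.trans (hpos n).1, hneg n⟩

/-- (H2) for `0 ≤ B t v` -/
private theorem shrink_aux (hS : Sys Ψ B) (hC : Cn Ψ B ρ) {t v : E} (ht : t ∈ Ψ) (hv : v ∈ Ψ)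
    (hB : 0 ≤ B t v) {s : ℝ} (hs : 0 ≤ s) (hst : s ≤ ρ t) (h : |ρ v - s * B t v| ≤ ρ t - s) :
    |ρ v| ≤ ρ t := by
  rw [abs_le] at h
  obtain ⟨ha, hb⟩ := h
  rcases le_total (B t v) 1 with h1 | h1
  · have h2 : s * B t v ≤ s := by nlinarith
    have h3 : 0 ≤ s * B t v := mul_nonneg hs hB
    rw [abs_le]
    constructor <;> linarith
  · have h3 : s ≤ s * B t v := by nlinarith
    rw [abs_le]
    refine ⟨by linarith, ?_⟩
    by_contra hh
    rw [not_le] at hh
    have ht0 : 0 ≤ ρ t := hs.trans hst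
    rcases eq_or_lt_of_le ht0 with h4 | h4
    · have h5 : s = 0 := le_antisymm (hst.trans h4.symm.le) hs
      rw [h5] at hb
      linarith
    · have htv : t ≠ v := by
        rintro rfl
        exact lt_irrefl _ hh
      refine Cn.nest hS hC ht hv htv h1 h4 hh.le ?_
      nlinarith [mul_nonneg (sub_nonneg.mpr hst) (sub_nonneg.mpr h1),
        mul_nonneg ht0 (sub_nonneg.mpr h1)]

/-- (H2) -/
theorem Cn.shrink (hS : Sys Ψ B) (hC : Cn Ψ B ρ) {t v : E} (ht : t ∈ Ψ) (hv : v ∈ Ψ)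
    {s : ℝ} (hs : 0 ≤ s) (hst : s ≤ ρ t) (h : |ρ v - s * B t v| ≤ ρ t - s) : |ρ v| ≤ ρ t := by
  rcases le_total 0 (B t v) with hB | hB
  · exact shrink_aux hS hC ht hv hB hs hst h
  · have h1 := shrink_aux hS hC ht (hS.neg v hv) (by rw [map_neg]; linarith) hs hst
      (by rw [map_neg, map_neg, ← abs_neg]; convert h using 2; ring)
    rwa [map_neg, abs_neg] at h1

theorem rf_rf_one {v : E} (h1 : B v v = 1) (w : E) : rf B v (rf B v w) = w := by
  unfold rf
  simp only [map_sub, map_smul, smul_eq_mul, h1]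
  module

/-- (H3), first part -/
theorem Adm.cn {a b c : E} (hT : Tri Ψ B a b c) (hA : Adm Ψ a b c ρ) : Cn Ψ B ρ := by
  refine ⟨hA.fin, fun u hu => ?_⟩
  have hinv := hT.inv u hu
  have hneg := hA.neg
  have h1 : ({v | v ∈ Ψ ∧ v ∈ C01 a b c ∧ ρ v ≤ 0} ∪ (fun v => -v) '' {v | v ∈ Ψ ∧ v ∈ C01 a b c ∧ ρ v ≤ 0} ∪
      {v | v ∈ Ψ ∧ v ∈ C01 a b c ∧ -rf B u v ∈ C01 a b c} ∪
      (rf B u) '' {v | v ∈ Ψ ∧ v ∈ C01 a b c ∧ ρ v ≤ 0}).Finite :=
    (((hneg.union (hneg.image _)).union hinv)).union (hneg.image _)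
  refine h1.subset ?_
  rintro v ⟨hv, hv0, hv1⟩
  have hr := hT.refl u hu v hv
  rcases hT.pos v hv with h2 | h2
  · rcases hT.pos _ hr with h3 | h3
    · exact Or.inr ⟨rf B u v, ⟨hr, h3, hv1⟩, rf_rf_one (hT.one u hu) v⟩
    · exact Or.inl (Or.inr ⟨hv, h2, h3⟩)
  · refine Or.inl (Or.inl (Or.inr ⟨-v, ⟨hT.neg v hv, h2, by rw [map_neg]; linarith⟩, neg_neg v⟩))

/-- (H3), second part -/
theorem Adm.move {a b c : E} (hT : Tri Ψ B a b c) (hA : Adm Ψ a b c ρ) {t : E} (ht : t ∈ Ψ) {s : ℝ}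
    (hs : 0 ≤ s) (hst : s ≤ ρ t) : Adm Ψ a b c (ρ - s • B t) := by
  have hC := Adm.cn hT hA
  have ht0 : 0 ≤ ρ t := hs.trans hst
  have hinv := hC.inv t ht
  have hrf : ∀ u, ρ (rf B t u) = ρ u - 2 * B t u * ρ t := by
    intro u
    unfold rf
    simp only [map_sub, map_smul, smul_eq_mul]
  -- the value is an average
  have hval : ∀ u, (ρ - s • B t) u = ρ u - s * B t u := by
    intro u
    simp
  have hkey : ∀ u, 0 ≤ ρ u → 0 ≤ ρ (rf B t u) → ρ u / 2 ≤ (ρ - s • B t) u := by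
    intro u h1 h2
    rw [hval]
    rw [hrf] at h2
    rcases le_total 0 (B t u) with h3 | h3
    · nlinarith [mul_nonneg h3 (sub_nonneg.mpr hst)]
    · nlinarith [mul_nonneg hs (neg_nonneg.mpr h3)]
  constructor
  · intro r
    have h1 : ({u | u ∈ Ψ ∧ |ρ u| ≤ 2 * r} ∪ {u | u ∈ Ψ ∧ 0 ≤ ρ u ∧ ρ (rf B t u) ≤ 0} ∪
        (fun u => -u) '' {u | u ∈ Ψ ∧ 0 ≤ ρ u ∧ ρ (rf B t u) ≤ 0}).Finite :=
      ((hA.fin (2 * r)).union hinv).union (hinv.image _)
    refine h1.subset ?_
    rintro u ⟨hu, hur⟩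
    rw [abs_le] at hur
    have hneg1 : ρ (rf B t (-u)) = -ρ (rf B t u) := by
      rw [hrf, hrf, map_neg, map_neg]
      ring
    rcases le_total 0 (ρ u) with h2 | h2
    · rcases le_total (ρ (rf B t u)) 0 with h3 | h3
      · exact Or.inl (Or.inr ⟨hu, h2, h3⟩)
      · have h4 := hkey u h2 h3
        refine Or.inl (Or.inl ⟨hu, ?_⟩)
        rw [abs_of_nonneg h2]
        linarith [hur.2]
    · rcases le_total (ρ (rf B t u)) 0 with h3 | h3
      · have h4 := hkey (-u) (by rw [map_neg]; linarith) (by rw [hneg1]; linarith)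
        rw [map_neg, map_neg] at h4
        refine Or.inl (Or.inl ⟨hu, ?_⟩)
        rw [abs_of_nonpos h2]
        linarith [hur.1]
      · refine Or.inr ⟨-u, ⟨hT.neg u hu, by rw [map_neg]; linarith, by rw [hneg1]; linarith⟩, neg_neg u⟩
  · refine (hA.neg.union hinv).subset ?_
    rintro u ⟨hu, huc, hu0⟩
    rcases le_or_gt (ρ u) 0 with h2 | h2
    · exact Or.inl ⟨hu, huc, h2⟩
    · refine Or.inr ⟨hu, h2.le, ?_⟩
      by_contra h3
      rw [not_le] at h3
      have h4 := hkey u h2.le h3.le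
      linarith

end DY
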