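import Pool.Agent.Helper21.DY.H
import Pool.Agent.Helper69.DY.W

/-!
# Block [O]: balls (MP_d13a5e_al)
-/

namespace DY

open Set

variable {E : Type*} [AddCommGroup E] [Module ℝ E]
variable {Ψ : Set E} {B : E →ₗ[ℝ] E →ₗ[ℝ] ℝ} {ρ : E →ₗ[ℝ] ℝ}

/-- a positive lower bound on a finite set -/
theorem exists_lb21 {α : Type*} {F : Set α} (hF : F.Finite) {f : α → ℝ} (hf : ∀ u ∈ F, 0 < f u) :
    ∃ δ > 0, ∀ u ∈ F, δ ≤ f u := by
  induction F, hF using Set.Finite.induction_on with
  | empty => exact ⟨1, one_pos, fun u hu => absurd hu (Set.notMem_empty u)⟩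
  | @insert a s _ _ ih =>
    obtain ⟨δ, hδ, h⟩ := ih fun u hu => hf u (Set.mem_insert_of_mem a hu)
    refine ⟨min δ (f a), lt_min hδ (hf a (Set.mem_insert a s)), fun u hu => ?_⟩
    rcases hu with rfl | hu
    · exact min_le_right _ _
    · exact (min_le_left _ _).trans (h u hu)

/-- a bound for `B t` on a finite set of roots -/
private theorem exists_bd21 {F : Set E} (hF : F.Finite) (f : E → ℝ) : ∃ C, 0 ≤ C ∧ ∀ u ∈ F, |f u| ≤ C := by
  induction F, hF using Set.Finite.induction_on with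
  | empty => exact ⟨0, le_rfl, fun u hu => absurd hu (Set.notMem_empty u)⟩
  | @insert a s _ _ ih =>
    obtain ⟨C, hC, h⟩ := ih
    refine ⟨max C |f a|, le_max_of_le_left hC, fun u hu => ?_⟩
    rcases hu with rfl | hu
    · exact le_max_right _ _
    · exact (h u hu).trans (le_max_left _ _)

/-- **(O1)** shrinking a ball towards the root `t` on its boundary -/
theorem Adm.shr {a b c : E} (hT : Tri Ψ B a b c) (hA : Adm Ψ a b c ρ) {t : E} (ht : t ∈ Ψ) {R : ℝ}
    (htR : ρ t = R) (hR : 0 < R) :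
    ∃ δ0 > 0, δ0 < R ∧ ∀ δ, 0 < δ → δ ≤ δ0 → ∀ u,
      (u ∈ Ψ ∧ |ρ u - δ * B t u| ≤ R - δ) ↔ (u ∈ Ψ ∧ (|ρ u| < R ∨ u = t ∨ u = -t)) := by
  have hS := hT.sys
  have hC := Adm.cn hT hA
  have hF : {u | u ∈ Ψ ∧ |ρ u| < R}.Finite := (hA.fin R).subset fun u hu => ⟨hu.1, hu.2.le⟩
  obtain ⟨δ1, hδ1, h1⟩ := exists_lb21 hF (f := fun u => (R - |ρ u|) / (1 + |B t u|)) (by
    rintro u ⟨-, hu⟩
    exact div_pos (by linarith) (by linarith [abs_nonneg (B t u)]))
  refine ⟨min δ1 (R / 2), lt_min hδ1 (by linarith), (min_le_right _ _).trans_lt (by linarith), ?_⟩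
  intro δ hδ hδ0 u
  have hd1 : δ ≤ δ1 := hδ0.trans (min_le_left _ _)
  have hd2 : δ ≤ R / 2 := hδ0.trans (min_le_right _ _)
  refine and_congr_right fun hu => ?_
  constructor
  · intro h
    rcases lt_or_ge |ρ u| R with h2 | h2
    · exact Or.inl h2
    · right
      have h3 : |ρ u| ≤ R := by
        have := Cn.shrink hS hC ht hu hδ.le (by rw [htR]; linarith) (by rw [htR]; exact h)
        rwa [htR] at this
      have h4 : |ρ u| = R := le_antisymm h3 h2
      have key : ∀ v ∈ Ψ, ρ v = R → |ρ v - δ * B t v| ≤ R - δ → v = t := by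
        intro v hv hvR hvd
        by_contra hne
        rw [abs_le, hvR] at hvd
        have h5 : 1 ≤ B t v := by nlinarith [hvd.2]
        refine Cn.nest hS hC ht hv (Ne.symm hne) h5 (by rw [htR]; exact hR) (by rw [htR, hvR]) ?_
        rw [htR, hvR]
        nlinarith
      rcases abs_eq hR.le |>.mp h4 with h5 | h5
      · exact Or.inl (key u hu h5 h)
      · right
        have h6 := key (-u) (hS.neg u hu) (by rw [map_neg, h5, neg_neg]) (by
          rw [map_neg, map_neg, ← abs_neg]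
          convert h using 2
          ring)
        rw [← h6, neg_neg]
  · rintro (h | rfl | rfl)
    · have h2 := h1 u ⟨hu, h⟩
      have h3 : 0 < 1 + |B t u| := by linarith [abs_nonneg (B t u)]
      have h4 : δ * (1 + |B t u|) ≤ R - |ρ u| := by
        rw [← le_div_iff₀ h3]
        exact hd1.trans h2
      have h5 : |ρ u - δ * B t u| ≤ |ρ u| + |δ * B t u| := abs_sub _ _
      rw [abs_mul, abs_of_pos hδ] at h5
      linarith
    · rw [hS.one _ ht, mul_one, htR, abs_of_nonneg (by linarith)]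
    · rw [map_neg, map_neg, hS.one _ ht, htR, abs_of_nonpos (by linarith)]
      linarith

/-- **(O2)** a ball is a ball of all centres near by in the direction of `t` -/
theorem Adm.opn {a b c : E} (hT : Tri Ψ B a b c) (hA : Adm Ψ a b c ρ) {t : E} (ht : t ∈ Ψ)
    (ht0 : 0 < ρ t) {R : ℝ} (hR : 0 ≤ R) :
    ∃ δ0 > 0, ∀ δ, 0 ≤ δ → δ ≤ δ0 → ∃ R', 0 ≤ R' ∧ ∀ u,
      (u ∈ Ψ ∧ |ρ u| ≤ R) ↔ (u ∈ Ψ ∧ |ρ u - δ * B t u| ≤ R') := by
  have hS := hT.sys
  have hC := Adm.cn hT hA
  -- the gap above `R`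
  obtain ⟨M, hM, hgap⟩ : ∃ M, R < M ∧ ∀ u ∈ Ψ, |ρ u| ≤ R ∨ M ≤ |ρ u| := by
    have hF : {u | u ∈ Ψ ∧ R < |ρ u| ∧ |ρ u| ≤ R + 1}.Finite :=
      (hA.fin (R + 1)).subset fun u hu => ⟨hu.1, hu.2.2⟩
    obtain ⟨d, hd, h1⟩ := exists_lb21 hF (f := fun u => |ρ u| - R) (fun u hu => by
      have := hu.2.1
      linarith)
    refine ⟨R + min d 1, by linarith [lt_min hd one_pos], fun u hu => ?_⟩
    rcases le_or_gt |ρ u| R with h2 | h2
    · exact Or.inl h2
    · right
      rcases le_or_gt |ρ u| (R + 1) with h3 | h3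
      · have := h1 u ⟨hu, h2, h3⟩
        linarith [min_le_left d 1]
      · linarith [min_le_right d 1]
  obtain ⟨C1, hC1, h1⟩ := exists_bd21 (hA.fin R) (fun u => B t u)
  obtain ⟨C2, hC2, h2⟩ := exists_bd21 (hC.inv t ht) (fun u => B t u)
  have hM0 : 0 < M := by linarith
  have hrf : ∀ u, ρ (rf B t u) = ρ u - 2 * B t u * ρ t := by
    intro u
    unfold rf
    simp only [map_sub, map_smul, smul_eq_mul]
  refine ⟨min ((M - R) / (4 * (1 + C1 + C2))) (ρ t * (M - R) / (2 * M)),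
    lt_min (div_pos (by linarith) (by positivity)) (div_pos (mul_pos ht0 (by linarith)) (by positivity)), ?_⟩
  intro δ hδ hδ0
  have hd1 : δ * (1 + C1 + C2) ≤ (M - R) / 4 := by
    have h3 := hδ0.trans (min_le_left _ _)
    rw [le_div_iff₀ (by positivity)] at h3
    linarith
  have hd2 : δ * M ≤ ρ t * (M - R) / 2 := by
    have h3 := hδ0.trans (min_le_right _ _)
    rw [le_div_iff₀ (by positivity)] at h3
    linarith
  refine ⟨(R + M) / 2, by linarith, fun u => and_congr_right fun hu => ?_⟩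
  constructor
  · intro h
    have h3 : |ρ u - δ * B t u| ≤ |ρ u| + |δ * B t u| := abs_sub _ _
    rw [abs_mul, abs_of_nonneg hδ] at h3
    have h4 : δ * |B t u| ≤ δ * C1 := mul_le_mul_of_nonneg_left (h1 u ⟨hu, h⟩) hδ
    nlinarith [mul_nonneg hδ hC2, mul_nonneg hδ hC1]
  · intro h
    by_contra hcon
    have hMu : M ≤ |ρ u| := (hgap u hu).resolve_left hcon
    -- it is enough to treat `0 < ρ u`
    have key : ∀ v ∈ Ψ, M ≤ ρ v → (R + M) / 2 < ρ v - δ * B t v := by
      intro v hv hMv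
      rcases le_or_gt (ρ (rf B t v)) 0 with h3 | h3
      · have h4 : |B t v| ≤ C2 := h2 v ⟨hv, by linarith, h3⟩
        have h5 : δ * B t v ≤ δ * C2 :=
          mul_le_mul_of_nonneg_left ((le_abs_self _).trans h4) hδ
        nlinarith [mul_nonneg hδ hC1]
      · rw [hrf] at h3
        -- `δ * B t v < δ * ρ v / (2 ρ t)`
        have h4 : δ * (2 * B t v * ρ t) ≤ δ * ρ v := mul_le_mul_of_nonneg_left (by linarith) hδ
        have h5 : ρ t * (δ * B t v) ≤ ρ t * ((M - R) / 4 * (ρ v / M)) := by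
          have h6 : δ ≤ ρ t * (M - R) / 2 / M := by rw [le_div_iff₀ hM0]; exact hd2
          have h7 : δ * ρ v ≤ ρ t * (M - R) / 2 / M * ρ v :=
            mul_le_mul_of_nonneg_right h6 (by linarith)
          have h8 : ρ t * ((M - R) / 4 * (ρ v / M)) = (ρ t * (M - R) / 2 / M * ρ v) / 2 := by
            field_simp
            ring
          rw [h8]
          linarith
        have h6 : δ * B t v ≤ (M - R) / 4 * (ρ v / M) := le_of_mul_le_mul_left h5 ht0
        have h7 : 1 ≤ ρ v / M := by rw [le_div_iff₀ hM0]; linarith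
        have h8 : ρ v = M * (ρ v / M) := by field_simp
        nlinarith
    rcases le_or_gt 0 (ρ u) with h3 | h3
    · rw [abs_of_nonneg h3] at hMu
      have h4 := key u hu hMu
      have h5 := (le_abs_self (ρ u - δ * B t u)).trans h
      linarith
    · rw [abs_of_neg h3] at hMu
      have h4 := key (-u) (hS.neg u hu) (by rw [map_neg]; exact hMu)
      rw [map_neg, map_neg] at h4
      have h5 := (neg_le_abs (ρ u - δ * B t u)).trans h
      linarith

/-- (O3), core -/
private theorem four_aux {a b c : E} (hT : Tri Ψ B a b c) (ha : 0 ≤ ρ a) (hb : 0 ≤ ρ b) {R : ℝ} (hR : 0 < R)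
    (hc : R ≤ ρ c) {x x' : E} (hx : x ∈ Ψ) (hx' : x' ∈ Ψ) (hcan : Canon Ψ x x') (hne : x ≠ x')
    (h0 : 0 < ρ x) (h0' : 0 < ρ x') (hxR : ρ x < R) (hxR' : ρ x' < R)
    {t : E} (ht : t ∈ Ψ) (htn : ∀ α β : ℝ, t ≠ α • x + β • x') (htR : ρ t = R) : t = c := by
  have hc0 : 0 ≤ ρ c := hR.le.trans hc
  have e0 : ∀ {z : ℝ}, Z1 z → 0 ≤ z := by
    intro z hz
    rcases hz with hz | hz <;> linarith
  have hval : ∀ α β γ : ℝ, ρ (α • a + β • b + γ • c) = α * ρ a + β * ρ b + γ * ρ c := by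
    intro α β γ
    simp only [map_add, map_smul, smul_eq_mul]
  have hsm : ∀ u ∈ Ψ, 0 < ρ u → ρ u < R → ∃ α β : ℝ, u = α • a + β • b := by
    intro u hu hu0 huR
    rcases hT.pos u hu with ⟨α, β, γ, h1, h2, h3, h4⟩ | ⟨α, β, γ, h1, h2, h3, h4⟩
    · rcases h4 with h4 | h4
      · exact ⟨α, β, by rw [h1, h4]; module⟩
      · exfalso
        have h5 : ρ u = α * ρ a + β * ρ b + γ * ρ c := by rw [h1, hval]
        nlinarith [mul_nonneg (e0 h2) ha, mul_nonneg (e0 h3) hb, mul_le_mul_of_nonneg_right h4 hc0]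
    · exfalso
      have h5 : ρ (-u) = α * ρ a + β * ρ b + γ * ρ c := by rw [h1, hval]
      rw [map_neg] at h5
      nlinarith [mul_nonneg (e0 h2) ha, mul_nonneg (e0 h3) hb, mul_nonneg (e0 h4) hc0]
  obtain ⟨α, β, hx1⟩ := hsm x hx h0 hxR
  obtain ⟨α', β', hx1'⟩ := hsm x' hx' h0' hxR'
  -- `x, x'` are independent
  have hdet : α * β' - α' * β ≠ 0 := by
    intro hdet
    have hxx := hT.one x hx
    have hxx' := hT.one x' hx'
    -- `ρ x' • x = ρ x • x'`
    have h1 : α * ρ x' = α' * ρ x := by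
      have e1 : ρ x = α * ρ a + β * ρ b := by rw [hx1]; simp
      have e2 : ρ x' = α' * ρ a + β' * ρ b := by rw [hx1']; simp
      rw [e1, e2]
      linear_combination (ρ b) * hdet
    have h2 : β * ρ x' = β' * ρ x := by
      have e1 : ρ x = α * ρ a + β * ρ b := by rw [hx1]; simp
      have e2 : ρ x' = α' * ρ a + β' * ρ b := by rw [hx1']; simp
      rw [e1, e2]
      linear_combination -(ρ a) * hdet
    have h3 : ρ x' • x = ρ x • x' := by
      rw [hx1, hx1']
      calc (ρ (α' • a + β' • b)) • (α • a + β • b) = (ρ x') • (α • a + β • b) := by rw [← hx1']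
        _ = (α * ρ x') • a + (β * ρ x') • b := by module
        _ = (α' * ρ x) • a + (β' * ρ x) • b := by rw [h1, h2]
        _ = (ρ x) • (α' • a + β' • b) := by module
        _ = (ρ (α • a + β • b)) • (α' • a + β' • b) := by rw [← hx1]
    have h4 : x = (ρ x / ρ x') • x' := by
      rw [div_eq_inv_mul, mul_smul, ← h3, smul_smul, inv_mul_cancel₀ h0'.ne', one_smul]
    have h5 : (ρ x / ρ x') * (ρ x / ρ x') = 1 := by
      have h6 := hxx
      rw [h4] at h6
      simpa [hxx'] using h6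
    have h6 : 0 < ρ x / ρ x' := div_pos h0 h0'
    have h7 : ρ x / ρ x' = 1 := by nlinarith
    rw [h7, one_smul] at h4
    exact hne h4
  have hapos : ∀ u ∈ Ψ, 0 ≤ ρ u → (∃ p q : ℝ, u = p • x + q • x') → 0 < ρ u := by
    rintro u hu hu0 ⟨p, q, hpq⟩
    have h1 : ρ u = p * ρ x + q * ρ x' := by rw [hpq]; simp
    rcases hcan u hu p q hpq with (⟨rfl, rfl⟩ | ⟨rfl, rfl⟩ | ⟨h2, h3⟩) | (⟨h2, h3⟩ | ⟨h2, h3⟩ | ⟨h2, h3⟩)
    · rw [h1]; linarith
    · rw [h1]; linarith
    · rw [h1]; nlinarith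
    · nlinarith
    · nlinarith
    · nlinarith
  have ha1 : 0 < ρ a := by
    refine hapos a hT.ha ha ⟨β' / (α * β' - α' * β), -β / (α * β' - α' * β), ?_⟩
    rw [hx1, hx1']
    have e1 : (β' / (α * β' - α' * β)) • (α • a + β • b) + (-β / (α * β' - α' * β)) • (α' • a + β' • b) =
        ((α * β' - α' * β) / (α * β' - α' * β)) • a + (0 : ℝ) • b := by
      have e2 : (β' / (α * β' - α' * β)) * α + (-β / (α * β' - α' * β)) * α' =
          (α * β' - α' * β) / (α * β' - α' * β) := by ring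
      have e3 : (β' / (α * β' - α' * β)) * β + (-β / (α * β' - α' * β)) * β' = 0 := by ring
      calc _ = ((β' / (α * β' - α' * β)) * α + (-β / (α * β' - α' * β)) * α') • a +
            ((β' / (α * β' - α' * β)) * β + (-β / (α * β' - α' * β)) * β') • b := by module
        _ = _ := by rw [e2, e3]
    rw [e1, div_self hdet]
    module
  have hb1 : 0 < ρ b := by
    refine hapos b hT.hb hb ⟨-α' / (α * β' - α' * β), α / (α * β' - α' * β), ?_⟩
    rw [hx1, hx1']
    have e1 : (-α' / (α * β' - α' * β)) • (α • a + β • b) + (α / (α * β' - α' * β)) • (α' • a + β' • b) =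
        (0 : ℝ) • a + ((α * β' - α' * β) / (α * β' - α' * β)) • b := by
      have e2 : (-α' / (α * β' - α' * β)) * β + (α / (α * β' - α' * β)) * β' =
          (α * β' - α' * β) / (α * β' - α' * β) := by ring
      have e3 : (-α' / (α * β' - α' * β)) * α + (α / (α * β' - α' * β)) * α' = 0 := by ring
      calc _ = ((-α' / (α * β' - α' * β)) * α + (α / (α * β' - α' * β)) * α') • a +
            ((-α' / (α * β' - α' * β)) * β + (α / (α * β' - α' * β)) * β') • b := by module
        _ = _ := by rw [e2, e3]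
    rw [e1, div_self hdet]
    module
  -- the root `t`
  rcases hT.pos t ht with ⟨p, q, r, h1, h2, h3, h4⟩ | ⟨p, q, r, h1, h2, h3, h4⟩
  · have h5 : R = p * ρ a + q * ρ b + r * ρ c := by rw [← htR, h1, hval]
    have hp := mul_nonneg (e0 h2) ha1.le
    have hq := mul_nonneg (e0 h3) hb1.le
    rcases h4 with h4 | h4
    · exfalso
      have e1 : a = (β' / (α * β' - α' * β)) • x + (-β / (α * β' - α' * β)) • x' := by
        rw [hx1, hx1']
        have e1 : (β' / (α * β' - α' * β)) • (α • a + β • b) + (-β / (α * β' - α' * β)) • (α' • a + β' • b) =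
            ((α * β' - α' * β) / (α * β' - α' * β)) • a + (0 : ℝ) • b := by
          have e2 : (β' / (α * β' - α' * β)) * α + (-β / (α * β' - α' * β)) * α' =
              (α * β' - α' * β) / (α * β' - α' * β) := by ring
          have e3 : (β' / (α * β' - α' * β)) * β + (-β / (α * β' - α' * β)) * β' = 0 := by ring
          calc _ = ((β' / (α * β' - α' * β)) * α + (-β / (α * β' - α' * β)) * α') • a +
                ((β' / (α * β' - α' * β)) * β + (-β / (α * β' - α' * β)) * β') • b := by module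
            _ = _ := by rw [e2, e3]
        rw [e1, div_self hdet]
        module
      have e2 : b = (-α' / (α * β' - α' * β)) • x + (α / (α * β' - α' * β)) • x' := by
        rw [hx1, hx1']
        have e1 : (-α' / (α * β' - α' * β)) • (α • a + β • b) + (α / (α * β' - α' * β)) • (α' • a + β' • b) =
            (0 : ℝ) • a + ((α * β' - α' * β) / (α * β' - α' * β)) • b := by
          have e2 : (-α' / (α * β' - α' * β)) * β + (α / (α * β' - α' * β)) * β' =
              (α * β' - α' * β) / (α * β' - α' * β) := by ring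
          have e3 : (-α' / (α * β' - α' * β)) * α + (α / (α * β' - α' * β)) * α' = 0 := by ring
          calc _ = ((-α' / (α * β' - α' * β)) * α + (α / (α * β' - α' * β)) * α') • a +
                ((-α' / (α * β' - α' * β)) * β + (α / (α * β' - α' * β)) * β') • b := by module
            _ = _ := by rw [e2, e3]
        rw [e1, div_self hdet]
        module
      obtain ⟨a1, a2, e1'⟩ : ∃ a1 a2 : ℝ, a = a1 • x + a2 • x' := ⟨_, _, e1⟩
      obtain ⟨b1, b2, e2'⟩ : ∃ b1 b2 : ℝ, b = b1 • x + b2 • x' := ⟨_, _, e2⟩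
      apply htn (p * a1 + q * b1) (p * a2 + q * b2)
      rw [h1, h4, e1', e2']
      module
    · have h6 : R ≤ r * ρ c := hc.trans (le_mul_of_one_le_left hc0 h4)
      have h7 : p * ρ a = 0 := by linarith
      have h8 : q * ρ b = 0 := by linarith
      have h9 : p = 0 := (mul_eq_zero.mp h7).resolve_right ha1.ne'
      have h10 : q = 0 := (mul_eq_zero.mp h8).resolve_right hb1.ne'
      have h11 : r = 1 := by
        have h12 : 0 < ρ c := hR.trans_le hc
        rw [h7, h8] at h5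
        nlinarith
      rw [h1, h9, h10, h11]
      module
  · exfalso
    have h5 : ρ (-t) = p * ρ a + q * ρ b + r * ρ c := by rw [h1, hval]
    rw [map_neg, htR] at h5
    nlinarith [mul_nonneg (e0 h2) ha, mul_nonneg (e0 h3) hb, mul_nonneg (e0 h4) hc0]

/-- **(O3)** when the first root outside the plane of `x, x'` appears, it is unique -/
theorem Adm.four {a b c : E} (hT : Tri Ψ B a b c) (hA : Adm Ψ a b c ρ) {R : ℝ} {x x' : E}
    (hx : x ∈ Ψ) (hx' : x' ∈ Ψ) (hcan : Canon Ψ x x') (hne : x ≠ x') (h0 : 0 < ρ x) (h0' : 0 < ρ x')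
    (hxR : ρ x < R) (hxR' : ρ x' < R)
    (hall : ∀ u ∈ Ψ, |ρ u| < R → ∃ α β : ℝ, u = α • x + β • x')
    {t1 t2 : E} (ht1 : t1 ∈ Ψ) (ht2 : t2 ∈ Ψ) (hn1 : ∀ α β : ℝ, t1 ≠ α • x + β • x')
    (hn2 : ∀ α β : ℝ, t2 ≠ α • x + β • x') (h1R : ρ t1 = R) (h2R : ρ t2 = R) : t1 = t2 := by
  have hR : 0 < R := h0.trans hxR
  obtain ⟨a', b', c', hT', ha, hb, hc, -⟩ := exists_chamber hT hA
  rcases le_or_gt R (ρ c') with h1 | h1
  · rw [four_aux hT' ha hb hR h1 hx hx' hcan hne h0 h0' hxR hxR' ht1 hn1 h1R,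
      four_aux hT' ha hb hR h1 hx hx' hcan hne h0 h0' hxR hxR' ht2 hn2 h2R]
  rcases le_or_gt R (ρ a') with h2 | h2
  · rw [four_aux hT'.swapW' hc hb hR h2 hx hx' hcan hne h0 h0' hxR hxR' ht1 hn1 h1R,
      four_aux hT'.swapW' hc hb hR h2 hx hx' hcan hne h0 h0' hxR hxR' ht2 hn2 h2R]
  rcases le_or_gt R (ρ b') with h3 | h3
  · rw [four_aux hT'.swapW.swapW' hc ha hR h3 hx hx' hcan hne h0 h0' hxR hxR' ht1 hn1 h1R,
      four_aux hT'.swapW.swapW' hc ha hR h3 hx hx' hcan hne h0 h0' hxR hxR' ht2 hn2 h2R]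
  exfalso
  obtain ⟨p1, q1, e1⟩ := hall a' hT'.ha (by rw [abs_of_nonneg ha]; exact h2)
  obtain ⟨p2, q2, e2⟩ := hall b' hT'.hb (by rw [abs_of_nonneg hb]; exact h3)
  obtain ⟨p3, q3, e3⟩ := hall c' hT'.hc (by rw [abs_of_nonneg hc]; exact h1)
  obtain ⟨g1, g2, g3⟩ := hT'.indep (p2 * q3 - p3 * q2) (-(p1 * q3 - p3 * q1)) (p1 * q2 - p2 * q1) (by
    rw [e1, e2, e3]; module)
  obtain ⟨k1, k2, -⟩ := hT'.indep q2 (-q1) 0 (by
    have : q2 • a' + (-q1) • b' + (0 : ℝ) • c' = (p1 * q2 - p2 * q1) • x := by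
      rw [e1, e2]; module
    rw [this, g3, zero_smul])
  obtain ⟨l1, l2, -⟩ := hT'.indep p2 (-p1) 0 (by
    have : p2 • a' + (-p1) • b' + (0 : ℝ) • c' = -(p1 * q2 - p2 * q1) • x' := by
      rw [e1, e2]; module
    rw [this, g3, neg_zero, zero_smul])
  have m1 : p1 = 0 := by linarith
  have m2 : q1 = 0 := by linarith
  obtain ⟨n1, -, -⟩ := hT'.indep 1 0 0 (by rw [e1, m1, m2]; module)
  exact one_ne_zero n1

end DY
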